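import Mathlib

/-!
MP_998457, Q1 (disproved).  For the parity-check matrix `δ` of the length-4 repetition code with rows
`1100, 0110, 1111` one has `d = 4` and energy barrier `E = 2`, while the tensor product code of `δ`
with itself has energy barrier at most `6 < 8 = min(dE, Ed)`.
-/

namespace Pool.Agent.Results.MP_998457_co.BarrierBelowProduct

open Matrix

section Defs

variable {m n : Type} [Fintype m] [Fintype n] [DecidableEq m] [DecidableEq n]

/-- the energy: number of violated checks -/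
def energy (δ : Matrix m n (ZMod 2)) (x : n → ZMod 2) : ℕ := hammingNorm (δ.mulVec x)

/-- there is a path of single bit flips from `0` to `x` along which the energy is at most `E` -/
def HasPath (δ : Matrix m n (ZMod 2)) (x : n → ZMod 2) (E : ℕ) : Prop :=
  ∃ (F : ℕ) (p : ℕ → n → ZMod 2), p 0 = 0 ∧ p F = x ∧
    (∀ i < F, hammingDist (p i) (p (i + 1)) = 1) ∧ ∀ i ≤ F, energy δ (p i) ≤ E

/-- the energy barrier of `x` -/
noncomputable def barrier (δ : Matrix m n (ZMod 2)) (x : n → ZMod 2) : ℕ :=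
  sInf {E | HasPath δ x E}

/-- the energy barrier of the code -/
noncomputable def codeBarrier (δ : Matrix m n (ZMod 2)) : ℕ :=
  sInf {E | ∃ x : n → ZMod 2, x ≠ 0 ∧ δ.mulVec x = 0 ∧ barrier δ x = E}

/-- the minimum distance -/
noncomputable def dist (δ : Matrix m n (ZMod 2)) : ℕ :=
  sInf {w | ∃ x : n → ZMod 2, x ≠ 0 ∧ δ.mulVec x = 0 ∧ hammingNorm x = w}

end Defs

/-- the parity-check matrix of the tensor product code: `δa ⊗ I` stacked on top of `I ⊗ δb` -/
def tensorCode {ma na mb nb : Type} [DecidableEq na] [DecidableEq nb]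
    (δa : Matrix ma na (ZMod 2)) (δb : Matrix mb nb (ZMod 2)) :
    Matrix ((ma × nb) ⊕ (na × mb)) (na × nb) (ZMod 2) :=
  Matrix.fromRows (Matrix.kronecker δa (1 : Matrix nb nb (ZMod 2)))
    (Matrix.kronecker (1 : Matrix na na (ZMod 2)) δb)

/-- rows `1100, 0110, 1111` -/
def δ₀ : Matrix (Fin 3) (Fin 4) (ZMod 2) := !![1, 1, 0, 0; 0, 1, 1, 0; 1, 1, 1, 1]

lemma ker_cases : ∀ x : Fin 4 → ZMod 2, δ₀.mulVec x = 0 → x = 0 ∨ x = 1 := by decide

lemma one_mem_ker : δ₀.mulVec 1 = 0 := by decide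

lemma one_ne : (1 : Fin 4 → ZMod 2) ≠ 0 := by decide

lemma dist_eq : dist δ₀ = 4 := by
  have h : {w | ∃ x : Fin 4 → ZMod 2, x ≠ 0 ∧ δ₀.mulVec x = 0 ∧ hammingNorm x = w} = {4} := by
    ext w
    constructor
    · rintro ⟨x, h1, h2, h3⟩
      rcases ker_cases x h2 with h | h
      · exact absurd h h1
      · subst h; rw [← h3]; decide
    · rintro rfl
      exact ⟨1, one_ne, one_mem_ker, by decide⟩
  unfold dist
  rw [h]; simp

/-- the states with energy at most one that can be reached -/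
def R : Finset (Fin 4 → ZMod 2) := {![0, 0, 0, 0], ![0, 0, 0, 1], ![1, 0, 0, 1], ![0, 0, 1, 1]}

lemma R_closed : ∀ x ∈ R, ∀ y : Fin 4 → ZMod 2, hammingDist x y = 1 → energy δ₀ y ≤ 1 → y ∈ R := by
  decide

lemma no_path {E : ℕ} (hE : E ≤ 1) : ¬ HasPath δ₀ 1 E := by
  rintro ⟨F, p, h0, hF, hstep, hen⟩
  have key : ∀ i ≤ F, p i ∈ R := by
    intro i
    induction i with
    | zero => intro _; rw [h0]; decide
    | succ k ih =>
        intro hk
        exact R_closed _ (ih (by omega)) _ (hstep k (by omega)) ((hen (k + 1) hk).trans hE)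
  have h1 := key F le_rfl
  rw [hF] at h1
  revert h1; decide

/-- path in the length-4 code -/
def q : ℕ → Fin 4 → ZMod 2
  | 0 => ![0, 0, 0, 0]
  | 1 => ![0, 0, 0, 1]
  | 2 => ![1, 0, 0, 1]
  | 3 => ![1, 1, 0, 1]
  | _ => ![1, 1, 1, 1]

lemma path_two : HasPath δ₀ 1 2 :=
  ⟨4, q, by decide, by decide, by decide, by decide⟩

lemma barrier_one : barrier δ₀ 1 = 2 := by
  unfold barrier
  apply le_antisymm (Nat.sInf_le path_two)
  apply le_csInf ⟨2, path_two⟩
  intro E hE
  by_contra hlt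
  exact no_path (by omega) hE

lemma codeBarrier_eq : codeBarrier δ₀ = 2 := by
  have h : {E | ∃ x : Fin 4 → ZMod 2, x ≠ 0 ∧ δ₀.mulVec x = 0 ∧ barrier δ₀ x = E} = {2} := by
    ext w
    constructor
    · rintro ⟨x, h1, h2, h3⟩
      rcases ker_cases x h2 with h | h
      · exact absurd h h1
      · subst h; rw [← h3]; exact barrier_one
    · rintro rfl
      exact ⟨1, one_ne, one_mem_ker, barrier_one⟩
  unfold codeBarrier
  rw [h]; simp

/-- order in which the cells are flipped: bit `4 i + j` is the cell `(i,j)` -/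
def order : Fin 4 → Fin 4 → ℕ :=
  ![![0, 1, 4, 6], ![2, 3, 5, 7], ![8, 9, 10, 11], ![12, 13, 14, 15]]

def path (t : ℕ) : Fin 4 × Fin 4 → ZMod 2 := fun c => if order c.1 c.2 < t then 1 else 0

lemma energies : ∀ t ≤ 16, energy (tensorCode δ₀ δ₀) (path t) ≤ 6 := by decide

lemma steps : ∀ t < 16, hammingDist (path t) (path (t + 1)) = 1 := by decide

lemma tensor_one_mem : (tensorCode δ₀ δ₀).mulVec 1 = 0 := by decide

lemma tensor_path : HasPath (tensorCode δ₀ δ₀) 1 6 :=
  ⟨16, path, by decide, by decide, steps, energies⟩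

lemma tensor_barrier_le : codeBarrier (tensorCode δ₀ δ₀) ≤ 6 := by
  have h1 : barrier (tensorCode δ₀ δ₀) 1 ≤ 6 := Nat.sInf_le tensor_path
  refine le_trans (Nat.sInf_le ⟨1, ?_, tensor_one_mem, rfl⟩) h1
  decide

/-- The inequality of Q1 fails for `δa = δb = δ₀`. -/
theorem result : (∃ x : Fin 4 → ZMod 2, x ≠ 0 ∧ δ₀.mulVec x = 0) ∧ dist δ₀ = 4 ∧
    codeBarrier δ₀ = 2 ∧ codeBarrier (tensorCode δ₀ δ₀) ≤ 6 ∧
    ¬ (min (dist δ₀ * codeBarrier δ₀) (codeBarrier δ₀ * dist δ₀) ≤
      codeBarrier (tensorCode δ₀ δ₀)) := by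
  refine ⟨⟨1, one_ne, one_mem_ker⟩, dist_eq, codeBarrier_eq, tensor_barrier_le, ?_⟩
  rw [dist_eq, codeBarrier_eq]
  have := tensor_barrier_le
  omega

end Pool.Agent.Results.MP_998457_co.BarrierBelowProduct
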